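import Pool.Agent.K1H88.DF.Stm

/-! Project DF, piece RAT: a cluster with more than half of all points above `u` contains a point
of `F`. -/

set_option autoImplicit false

namespace Pool.Agent.K1H39.DF

open Pool.Agent.K1H88.DF
open Pool.Agent.K1H88.DP (Kp pl vn cont)

section
variable {F : Type} [Field F] [NumberField F] {ι : Type} [Fintype ι] (E : ι → Type)
  [∀ k, Field (E k)] [∀ k, NumberField (E k)] [∀ k, Algebra F (E k)]

/-- Galois action on the embeddings above `u`. -/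
noncomputable def gal {p : Nat.Primes} {u : F →+* Kp p} (τ : Kp p ≃ₐ[ℚ_[(p : ℕ)]] Kp p)
    (hτ : ∀ a : F, τ (u a) = u a) (i : EmbU F E u) : EmbU F E u :=
  ⟨⟨i.1.1, (τ : Kp p →+* Kp p).comp i.1.2⟩, by
    ext a
    have h := RingHom.congr_fun i.2 a
    rw [RingHom.comp_apply] at h
    rw [RingHom.comp_apply, RingHom.comp_apply]
    show τ (i.1.2 (algebraMap F (E i.1.1) a)) = u a
    rw [h, hτ]⟩

variable {E}

theorem gal_inj {p : Nat.Primes} {u : F →+* Kp p} (τ : Kp p ≃ₐ[ℚ_[(p : ℕ)]] Kp p)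
    (hτ : ∀ a : F, τ (u a) = u a) : Function.Injective (gal E τ hτ) := by
  rintro ⟨⟨k, s⟩, hs⟩ ⟨⟨k', s'⟩, hs'⟩ h
  simp only [gal, Subtype.mk.injEq, Sigma.mk.injEq] at h
  obtain ⟨rfl, h⟩ := h
  have h := eq_of_heq h
  have h2 : s = s' := by
    ext a
    have := RingHom.congr_fun h a
    exact τ.injective this
  subst h2
  rfl

theorem norm_gal {p : Nat.Primes} (τ : Kp p ≃ₐ[ℚ_[(p : ℕ)]] Kp p) (a : Kp p) : ‖τ a‖ = ‖a‖ := by
  have := spectralNorm_eq_of_equiv τ a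
  rw [PadicAlgCl.spectralNorm_eq, PadicAlgCl.spectralNorm_eq] at this
  exact this.symm

theorem vn_gal {p : Nat.Primes} {u : F →+* Kp p} (τ : Kp p ≃ₐ[ℚ_[(p : ℕ)]] Kp p)
    (hτ : ∀ a : F, τ (u a) = u a) (x y : ∀ k, E k) (i : EmbU F E u) :
    vn E x y (gal E τ hτ i).1 = vn E x y i.1 := by
  unfold vn
  have h1 : (gal E τ hτ i).1.2 (x (gal E τ hτ i).1.1) = τ (i.1.2 (x i.1.1)) := rfl
  have h2 : (gal E τ hτ i).1.2 (y (gal E τ hτ i).1.1) = τ (i.1.2 (y i.1.1)) := rfl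
  rw [h1, h2, norm_gal, norm_gal]

theorem pl_gal {p : Nat.Primes} {u : F →+* Kp p} (τ : Kp p ≃ₐ[ℚ_[(p : ℕ)]] Kp p)
    (hτ : ∀ a : F, τ (u a) = u a) (x y : ∀ k, E k) (i j : EmbU F E u) :
    pl E x y (gal E τ hτ i).1 (gal E τ hτ j).1 = τ (pl E x y i.1 j.1) := by
  unfold pl
  rw [map_sub, map_mul, map_mul]
  rfl

theorem pl_swap {p : Nat.Primes} (x y : ∀ k, E k) (i j : Pool.Agent.K1H88.DP.Emb E (Kp p)) :
    pl E y x i j = -pl E x y i j := by
  unfold pl; ring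

theorem vn_swap {p : Nat.Primes} (x y : ∀ k, E k) (i : Pool.Agent.K1H88.DP.Emb E (Kp p)) :
    vn E y x i = vn E x y i := max_comm _ _

/-- The case where all `‖y_i‖` are maximal. -/
theorem rat_case (hA : S_APX) (p : Nat.Primes) (u : F →+* Kp p) (x y : ∀ k, E k) (κ ε : ℝ)
    (S : Finset (EmbU F E u))
    (hv : ∀ i : EmbU F E u, vn E x y i.1 ≠ 0)
    (hc : Fintype.card (EmbU F E u) < 2 * S.card)
    (hS : ∀ i ∈ S, ∀ j, j ∈ S ↔ ‖pl E x y i.1 j.1‖ ≤ κ * (vn E x y i.1 * vn E x y j.1))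
    (hε : 0 < ε) (hε1 : ε < 1)
    (hκ : κ ≤ ‖((S.card : ℕ) : Kp p)‖ * ε)
    (hy : ∀ i ∈ S, ‖i.1.2 (y i.1.1)‖ = vn E x y i.1) :
    ∃ m : F, IsIntegral ℤ m ∧
      ∀ i ∈ S, ‖i.1.2 (x i.1.1) - u m * i.1.2 (y i.1.1)‖ ≤ ε * vn E x y i.1 := by
  classical
  have hvp : ∀ i : EmbU F E u, 0 < vn E x y i.1 := fun i =>
    lt_of_le_of_ne ((norm_nonneg _).trans (le_max_left _ _)) (hv i).symm
  have hS0 : 0 < S.card := by omega
  have hSK : ((S.card : ℕ) : Kp p) ≠ 0 := by exact_mod_cast hS0.ne'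
  have hSn : 0 < ‖((S.card : ℕ) : Kp p)‖ := norm_pos_iff.2 hSK
  have hSne : S.Nonempty := Finset.card_pos.1 hS0
  have hyne : ∀ i ∈ S, i.1.2 (y i.1.1) ≠ 0 := by
    intro i hi h
    have := hy i hi
    rw [h, norm_zero] at this
    exact hv i this.symm
  have hκ0 : 0 ≤ κ := by
    obtain ⟨i, hi⟩ := hSne
    have h := (hS i hi i).1 hi
    have h2 := (norm_nonneg _).trans h
    have h3 := mul_pos (hvp i) (hvp i)
    by_contra hcon
    push Not at hcon
    nlinarith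
  -- tau S = S
  have hgal : ∀ (τ : Kp p ≃ₐ[ℚ_[(p : ℕ)]] Kp p) (hτ : ∀ a : F, τ (u a) = u a),
      S.image (gal E τ hτ) = S := by
    intro τ hτ
    have hcard : (S.image (gal E τ hτ)).card = S.card :=
      Finset.card_image_of_injective _ (gal_inj τ hτ)
    apply Finset.eq_of_subset_of_card_le _ hcard.ge
    -- the intersection is nonempty
    have hint : (S.image (gal E τ hτ) ∩ S).Nonempty := by
      rw [← Finset.card_pos]
      have h1 := Finset.card_inter_add_card_union (S.image (gal E τ hτ)) S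
      have h2 : (S.image (gal E τ hτ) ∪ S).card ≤ Fintype.card (EmbU F E u) :=
        Finset.card_le_univ _
      omega
    obtain ⟨i', hi'⟩ := hint
    rw [Finset.mem_inter, Finset.mem_image] at hi'
    obtain ⟨⟨i, hi, rfl⟩, hi2⟩ := hi'
    intro j' hj'
    rw [Finset.mem_image] at hj'
    obtain ⟨j, hj, rfl⟩ := hj'
    rw [hS _ hi2, pl_gal, norm_gal, vn_gal, vn_gal]
    exact (hS i hi j).1 hj
  -- the sum of the points
  set z : EmbU F E u → Kp p := fun i => i.1.2 (x i.1.1) / i.1.2 (y i.1.1) with hz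
  have hzgal : ∀ (τ : Kp p ≃ₐ[ℚ_[(p : ℕ)]] Kp p) (hτ : ∀ a : F, τ (u a) = u a) i,
      z (gal E τ hτ i) = τ (z i) := by
    intro τ hτ i
    simp only [hz]
    rw [map_div₀]
    rfl
  have hzd : ∀ i ∈ S, ∀ j ∈ S, ‖z i - z j‖ ≤ κ := by
    intro i hi j hj
    have e : z i - z j = pl E x y i.1 j.1 / (i.1.2 (y i.1.1) * j.1.2 (y j.1.1)) := by
      simp only [hz, pl]
      rw [div_sub_div _ _ (hyne i hi) (hyne j hj)]
      congr 1
      ring
    rw [e, norm_div, norm_mul, hy i hi, hy j hj, div_le_iff₀ (mul_pos (hvp i) (hvp j))]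
    exact (hS i hi j).1 hj
  have hz1 : ∀ i ∈ S, ‖z i‖ ≤ 1 := by
    intro i hi
    simp only [hz]
    rw [norm_div, div_le_one (by rw [hy i hi]; exact hvp i), hy i hi]
    exact le_max_left _ _
  set r : Kp p := ∑ i ∈ S, z i with hr
  have hfix : ∀ τ : Kp p ≃ₐ[ℚ_[(p : ℕ)]] Kp p, (∀ a : F, τ (u a) = u a) → τ r = r := by
    intro τ hτ
    rw [hr, map_sum]
    conv_rhs => rw [← hgal τ hτ]
    rw [Finset.sum_image (fun a _ b _ h => gal_inj τ hτ h)]
    exact Finset.sum_congr rfl fun i _ => (hzgal τ hτ i).symm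
  set q : Kp p := r / ((S.card : ℕ) : Kp p) with hq
  -- z_i is close to q
  have hzq : ∀ i ∈ S, ‖z i - q‖ ≤ ε := by
    intro i hi
    have e : z i - q = (∑ j ∈ S, (z i - z j)) / ((S.card : ℕ) : Kp p) := by
      rw [hq, Finset.sum_sub_distrib, Finset.sum_const, nsmul_eq_mul, ← hr, sub_div,
        mul_div_cancel_left₀ _ hSK]
    rw [e, norm_div, div_le_iff₀ hSn]
    have h1 : ‖∑ j ∈ S, (z i - z j)‖ ≤ κ :=
      IsUltrametricDist.norm_sum_le_of_forall_le_of_nonneg hκ0 fun j hj => hzd i hi j hj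
    refine h1.trans (hκ.trans (le_of_eq ?_))
    ring
  have hqn : ‖q‖ ≤ 1 := by
    obtain ⟨i, hi⟩ := hSne
    have e : q = z i - (z i - q) := by ring
    rw [e, sub_eq_add_neg]
    refine (IsUltrametricDist.norm_add_le_max _ _).trans (max_le (hz1 i hi) ?_)
    rw [norm_neg]
    exact (hzq i hi).trans hε1.le
  have hqfix : ∀ τ : Kp p ≃ₐ[ℚ_[(p : ℕ)]] Kp p, (∀ a : F, τ (u a) = u a) → τ q = q := by
    intro τ hτ
    rw [hq, map_div₀, hfix τ hτ, map_natCast]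
  -- an integer close to q
  obtain ⟨m, hmi, hm⟩ := hA F p u q hqn hqfix ε hε
  refine ⟨m, hmi, fun i hi => ?_⟩
  have h1 : ‖z i - u m‖ ≤ ε := by
    have e : z i - u m = (z i - q) + (q - u m) := by ring
    rw [e]
    exact (IsUltrametricDist.norm_add_le_max _ _).trans (max_le (hzq i hi) hm)
  have e : i.1.2 (x i.1.1) - u m * i.1.2 (y i.1.1) = (z i - u m) * i.1.2 (y i.1.1) := by
    simp only [hz]
    rw [sub_mul, div_mul_cancel₀ _ (hyne i hi)]
  rw [e, norm_mul, hy i hi]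
  exact mul_le_mul_of_nonneg_right h1 (hvp i).le

end

theorem t_RAT (hA : S_APX) : S_RAT := by
  intro F _ _ ι _ E _ _ _ p u x y κ ε S hv hc hS hε hε1 hκ
  have hvp : ∀ i : EmbU F E u, 0 < vn E x y i.1 := fun i =>
    lt_of_le_of_ne ((norm_nonneg _).trans (le_max_left _ _)) (hv i).symm
  have hκ1 : κ < 1 := by
    refine lt_of_le_of_lt hκ ?_
    have h1 : ‖((S.card : ℕ) : Kp p)‖ ≤ 1 := by
      rw [← map_natCast (algebraMap ℚ_[(p : ℕ)] (Kp p)), PadicAlgCl.norm_extends]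
      exact_mod_cast Padic.norm_int_le_one (p := (p : ℕ)) (S.card : ℤ)
    calc ‖((S.card : ℕ) : Kp p)‖ * ε ≤ 1 * ε := mul_le_mul_of_nonneg_right h1 hε.le
      _ < 1 := by rw [one_mul]; exact hε1
  by_cases h : ∀ i ∈ S, ‖i.1.2 (y i.1.1)‖ = vn E x y i.1
  · obtain ⟨m, hmi, hm⟩ := rat_case hA p u x y κ ε S hv hc hS hε hε1 hκ h
    exact ⟨m, hmi, Or.inl hm⟩
  · have h' : ∀ j ∈ S, ‖j.1.2 (x j.1.1)‖ = vn E x y j.1 := by
      by_contra h'
      push Not at h h'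
      obtain ⟨i, hi, hi2⟩ := h
      obtain ⟨j, hj, hj2⟩ := h'
      have a1 : ‖i.1.2 (y i.1.1)‖ < vn E x y i.1 := lt_of_le_of_ne (le_max_right _ _) hi2
      have a2 : ‖j.1.2 (x j.1.1)‖ < vn E x y j.1 := lt_of_le_of_ne (le_max_left _ _) hj2
      have a3 : ‖i.1.2 (x i.1.1)‖ = vn E x y i.1 := by
        unfold vn at a1 ⊢
        rcases max_choice ‖i.1.2 (x i.1.1)‖ ‖i.1.2 (y i.1.1)‖ with e | e
        · exact e.symm
        · rw [e] at a1; exact absurd a1 (lt_irrefl _)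
      have a4 : ‖j.1.2 (y j.1.1)‖ = vn E x y j.1 := by
        unfold vn at a2 ⊢
        rcases max_choice ‖j.1.2 (x j.1.1)‖ ‖j.1.2 (y j.1.1)‖ with e | e
        · rw [e] at a2; exact absurd a2 (lt_irrefl _)
        · exact e.symm
      have b1 : ‖j.1.2 (x j.1.1) * i.1.2 (y i.1.1)‖ < ‖i.1.2 (x i.1.1) * j.1.2 (y j.1.1)‖ := by
        rw [norm_mul, norm_mul, a3, a4, mul_comm (vn E x y i.1)]
        exact mul_lt_mul'' a2 a1 (norm_nonneg _) (norm_nonneg _)
      have b2 : ‖pl E x y i.1 j.1‖ = vn E x y i.1 * vn E x y j.1 := by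
        unfold pl
        rw [sub_eq_add_neg, IsUltrametricDist.norm_add_eq_max_of_norm_ne_norm
          (by rw [norm_neg]; exact b1.ne'), norm_neg, max_eq_left b1.le, norm_mul, a3, a4]
      have b3 := (hS i hi j).1 hj
      rw [b2] at b3
      nlinarith [mul_pos (hvp i) (hvp j)]
    have hS' : ∀ i ∈ S, ∀ j, j ∈ S ↔
        ‖pl E y x i.1 j.1‖ ≤ κ * (vn E y x i.1 * vn E y x j.1) := by
      intro i hi j
      rw [pl_swap, norm_neg, vn_swap x y i.1, vn_swap x y j.1]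
      exact hS i hi j
    obtain ⟨m, hmi, hm⟩ := rat_case hA p u y x κ ε S (fun i => by rw [vn_swap]; exact hv i) hc hS'
      hε hε1 hκ (fun i hi => by rw [vn_swap]; exact h' i hi)
    refine ⟨m, hmi, Or.inr fun i hi => ?_⟩
    have := hm i hi
    rwa [vn_swap] at this

end Pool.Agent.K1H39.DF
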