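import Pool.Agent.K1H88.DF.Stm
import Pool.Agent.K1H89.DP.Ideal

/-! Project DF, piece APX: what is fixed by all automorphisms over `u(F)` is a limit of integers
of `F`. -/

set_option autoImplicit false

namespace Pool.Agent.K1H39.DF

open Pool.Agent.K1H88.DF NumberField FractionalIdeal
open Pool.Agent.K1H88.DP (Kp)
open Pool.Agent.K1H89.DP
open scoped nonZeroDivisors

section
variable {F : Type} [Field F] [NumberField F]

/-- density of `F` in the span of `u(F)` -/
theorem dense_of_span {p : Nat.Primes} (u : F →+* Kp p) {z : Kp p}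
    (hz : z ∈ Submodule.span ℚ_[(p : ℕ)] (Set.range u)) :
    ∀ ε : ℝ, 0 < ε → ∃ f : F, ‖z - u f‖ ≤ ε := by
  induction hz using Submodule.span_induction with
  | mem z hz =>
    intro ε hε
    obtain ⟨f, rfl⟩ := hz
    exact ⟨f, by rw [sub_self, norm_zero]; exact hε.le⟩
  | zero =>
    intro ε hε
    exact ⟨0, by rw [map_zero, sub_self, norm_zero]; exact hε.le⟩
  | add a b _ _ iha ihb =>
    intro ε hε
    obtain ⟨f, hf⟩ := iha ε hε
    obtain ⟨g, hg⟩ := ihb ε hε
    refine ⟨f + g, ?_⟩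
    have e : a + b - u (f + g) = (a - u f) + (b - u g) := by rw [map_add]; ring
    rw [e]
    exact (norm_add_le' _ _).trans (max_le hf hg)
  | smul c a _ iha =>
    intro ε hε
    have hc : 0 < ‖c‖ + 1 := by positivity
    obtain ⟨f, hf⟩ := iha (ε / (‖c‖ + 1)) (by positivity)
    have hf' : 0 < ‖u f‖ + 1 := by positivity
    obtain ⟨q, hq⟩ := Padic.rat_dense (p := (p : ℕ)) c (ε := ε / (‖u f‖ + 1)) (by positivity)
    refine ⟨(q : F) * f, ?_⟩
    have e : c • a - u ((q : F) * f) = algebraMap ℚ_[(p : ℕ)] (Kp p) c * (a - u f) +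
        algebraMap ℚ_[(p : ℕ)] (Kp p) (c - q) * u f := by
      rw [map_mul, map_ratCast, map_sub, map_ratCast, Algebra.smul_def]
      ring
    rw [e]
    refine (norm_add_le' _ _).trans (max_le ?_ ?_)
    · rw [norm_mul, PadicAlgCl.norm_extends]
      calc ‖c‖ * ‖a - u f‖ ≤ ‖c‖ * (ε / (‖c‖ + 1)) :=
            mul_le_mul_of_nonneg_left hf (norm_nonneg _)
        _ ≤ (‖c‖ + 1) * (ε / (‖c‖ + 1)) := by
            apply mul_le_mul_of_nonneg_right _ (by positivity)
            linarith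
        _ = ε := by field_simp
    · rw [norm_mul, PadicAlgCl.norm_extends]
      calc ‖c - (q : ℚ_[(p : ℕ)])‖ * ‖u f‖ ≤ (ε / (‖u f‖ + 1)) * (‖u f‖ + 1) := by
            apply mul_le_mul hq.le _ (norm_nonneg _) (by positivity)
            linarith
        _ = ε := by field_simp

theorem mem_span_of_fixed {p : Nat.Primes} (u : F →+* Kp p) (z : Kp p)
    (hz : ∀ τ : Kp p ≃ₐ[ℚ_[(p : ℕ)]] Kp p, (∀ a : F, τ (u a) = u a) → τ z = z) :
    z ∈ Submodule.span ℚ_[(p : ℕ)] (Set.range u) := by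
  set L : IntermediateField ℚ_[(p : ℕ)] (Kp p) :=
    IntermediateField.adjoin ℚ_[(p : ℕ)] (Set.range u) with hL
  have h1 : z ∈ L := by
    rw [← InfiniteGalois.fixedField_fixingSubgroup L, IntermediateField.mem_fixedField_iff]
    intro τ hτ
    apply hz
    intro a
    rw [IntermediateField.mem_fixingSubgroup_iff] at hτ
    exact hτ _ (IntermediateField.subset_adjoin _ _ ⟨a, rfl⟩)
  have h2 : L.toSubalgebra = Algebra.adjoin ℚ_[(p : ℕ)] (Set.range u) :=
    IntermediateField.adjoin_toSubalgebra_of_isAlgebraic fun x _ =>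
      Algebra.IsAlgebraic.isAlgebraic x
  have h3 : z ∈ Algebra.adjoin ℚ_[(p : ℕ)] (Set.range u) := by
    rw [← h2]
    exact h1
  have h4 : z ∈ Subalgebra.toSubmodule (Algebra.adjoin ℚ_[(p : ℕ)] (Set.range u)) := h3
  rw [Algebra.adjoin_eq_span] at h4
  have h5 : ((Submonoid.closure (Set.range u) : Submonoid (Kp p)) : Set (Kp p)) = Set.range u := by
    have : Submonoid.closure (Set.range u) = MonoidHom.mrange (u : F →* Kp p) := by
      apply Submonoid.closure_eq_of_le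
      · rintro _ ⟨a, rfl⟩
        exact ⟨a, rfl⟩
      · rintro _ ⟨a, rfl⟩
        exact Submonoid.subset_closure ⟨a, rfl⟩
    rw [this]
    rfl
  rwa [h5] at h4

theorem cmul (a b : 𝓞 F) : ((a * b : 𝓞 F) : F) = (a : F) * (b : F) :=
  map_mul (algebraMap (𝓞 F) F) a b

theorem cadd (a b : 𝓞 F) : ((a + b : 𝓞 F) : F) = (a : F) + (b : F) :=
  map_add (algebraMap (𝓞 F) F) a b

theorem csub (a b : 𝓞 F) : ((a - b : 𝓞 F) : F) = (a : F) - (b : F) :=
  map_sub (algebraMap (𝓞 F) F) a b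

theorem cpow (a : 𝓞 F) (n : ℕ) : ((a ^ n : 𝓞 F) : F) = (a : F) ^ n :=
  map_pow (algebraMap (𝓞 F) F) a n

theorem cone : ((1 : 𝓞 F) : F) = 1 := map_one (algebraMap (𝓞 F) F)

theorem cnat (n : ℕ) : ((n : 𝓞 F) : F) = n := map_natCast (algebraMap (𝓞 F) F) n

/-- the prime ideal of `u` -/
def pr {p : Nat.Primes} (u : F →+* Kp p) : Ideal (𝓞 F) where
  carrier := {r | ‖u (r : F)‖ < 1}
  zero_mem' := by simp
  add_mem' := by
    intro a b ha hb
    change ‖u ((a + b : 𝓞 F) : F)‖ < 1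
    rw [cadd, map_add]
    exact (norm_add_le' _ _).trans_lt (max_lt ha hb)
  smul_mem' := by
    intro c a ha
    change ‖u ((c * a : 𝓞 F) : F)‖ < 1
    rw [cmul, map_mul, norm_mul]
    exact lt_of_le_of_lt (mul_le_of_le_one_left (norm_nonneg _) (norm_O_le u c)) ha

theorem mem_pr {p : Nat.Primes} (u : F →+* Kp p) (r : 𝓞 F) : r ∈ pr u ↔ ‖u (r : F)‖ < 1 :=
  Iff.rfl

theorem pr_prime {p : Nat.Primes} (u : F →+* Kp p) : (pr u).IsPrime := by
  refine Ideal.isPrime_iff.2 ⟨?_, ?_⟩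
  · rw [Ideal.ne_top_iff_one, mem_pr]
    simp
  · intro a b hab
    by_contra h
    push Not at h
    rw [mem_pr] at hab
    rw [mem_pr, mem_pr, not_lt, not_lt] at h
    rw [cmul, map_mul, norm_mul] at hab
    nlinarith [h.1, h.2]

theorem pr_ne_bot {p : Nat.Primes} (u : F →+* Kp p) : pr u ≠ ⊥ := by
  intro h
  have h1 : ((p : ℕ) : 𝓞 F) ∈ pr u := by
    rw [mem_pr, cnat, map_natCast, ← map_natCast (algebraMap ℚ_[(p : ℕ)] (Kp p)),
      PadicAlgCl.norm_extends]
    exact Padic.norm_p_lt_one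
  rw [h, Ideal.mem_bot] at h1
  exact p.2.ne_zero (by exact_mod_cast h1)

theorem pr_max {p : Nat.Primes} (u : F →+* Kp p) : (pr u).IsMaximal :=
  (pr_prime u).isMaximal (pr_ne_bot u)

/-- an element of `F` of norm at most one at `u` is close to an integer -/
theorem near_int {p : Nat.Primes} (u : F →+* Kp p) (f : F) (hf : ‖u f‖ ≤ 1) (ε : ℝ)
    (hε : 0 < ε) : ∃ m : 𝓞 F, ‖u f - u (m : F)‖ ≤ ε := by
  obtain ⟨h, a, hh, ha, hfi⟩ := exists_pow_principal (1 : F) f (Or.inl one_ne_zero)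
  have hua : ‖u a‖ = 1 := by
    rw [← local_eq u 1 f a h hfi, map_one, norm_one, max_eq_left hf, one_pow]
  have h1 : (1 : F) ∈ spanSingleton (𝓞 F)⁰ a := by
    have := (pow_mem (1 : F) f h).1
    rwa [one_pow, hfi] at this
  have h2 : f ∈ spanSingleton (𝓞 F)⁰ a := by
    obtain ⟨k, rfl⟩ := Nat.exists_eq_succ_of_ne_zero hh
    rw [← hfi, pow_succ]
    have h3 := (pow_mem (1 : F) f k).1
    rw [one_pow] at h3
    have h4 : f ∈ fi (1 : F) f :=
      (mem_add _ _ _).2 ⟨0, zero_mem _, f, mem_spanSingleton_self _ f, zero_add f⟩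
    have := mul_mem_mul h3 h4
    rwa [one_mul] at this
  obtain ⟨s, hs⟩ := (mem_spanSingleton _).1 h1
  obtain ⟨g, hg⟩ := (mem_spanSingleton _).1 h2
  rw [Algebra.smul_def] at hs hg
  have hs' : ((s : 𝓞 F) : F) * a = 1 := hs
  have hg' : ((g : 𝓞 F) : F) * a = f := hg
  have hsf : (s : F) * f = g := by
    rw [← hg']
    linear_combination (g : F) * hs'
  have hus : ‖u (s : F)‖ = 1 := by
    have : ‖u ((s : F) * a)‖ = 1 := by rw [hs', map_one, norm_one]
    rwa [map_mul, norm_mul, hua, mul_one] at this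
  have hsP : s ∉ pr u := by
    rw [mem_pr, hus]
    exact lt_irrefl _
  obtain ⟨s', w, hw, hsw⟩ := (pr_max u).exists_inv hsP
  rw [mem_pr] at hw
  obtain ⟨t, ht⟩ := exists_pow_lt_of_lt_one hε hw
  refine ⟨g * (s' * ∑ i ∈ Finset.range t, w ^ i), ?_⟩
  have hgeo : s * (s' * ∑ i ∈ Finset.range t, w ^ i) = 1 - w ^ t := by
    have h5 := geom_sum_mul w t
    have h6 : s' * s = 1 - w := by rw [← hsw]; ring
    calc s * (s' * ∑ i ∈ Finset.range t, w ^ i) = (s' * s) * ∑ i ∈ Finset.range t, w ^ i := by ring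
      _ = 1 - w ^ t := by
          rw [h6]
          linear_combination -h5
  have e : f - ((g * (s' * ∑ i ∈ Finset.range t, w ^ i) : 𝓞 F) : F) = f * ((w : F) ^ t) := by
    have h7 : ((s * (s' * ∑ i ∈ Finset.range t, w ^ i) : 𝓞 F) : F) = ((1 - w ^ t : 𝓞 F) : F) := by
      rw [hgeo]
    rw [cmul s, csub, cone, cpow] at h7
    rw [cmul g]
    have h8 : ((g : 𝓞 F) : F) = (s : F) * f := hsf.symm
    rw [h8]
    linear_combination -f * h7
  rw [← map_sub, e, map_mul, norm_mul, map_pow, norm_pow]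
  calc ‖u f‖ * ‖u (w : F)‖ ^ t ≤ 1 * ε :=
        mul_le_mul hf ht.le (by positivity) zero_le_one
    _ = ε := one_mul ε

end

theorem t_APX : S_APX := by
  intro F _ _ p u z hz1 hz ε hε
  obtain ⟨f, hf⟩ := dense_of_span u (mem_span_of_fixed u z hz) (min ε 1) (lt_min hε one_pos)
  have hf1 : ‖u f‖ ≤ 1 := by
    have e : u f = z + -(z - u f) := by ring
    rw [e]
    refine (norm_add_le' _ _).trans (max_le hz1 ?_)
    rw [norm_neg]
    exact hf.trans (min_le_right _ _)
  obtain ⟨m, hm⟩ := near_int u f hf1 ε hε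
  refine ⟨(m : F), m.2, ?_⟩
  have e : z - u (m : F) = (z - u f) + (u f - u (m : F)) := by ring
  rw [e]
  exact (norm_add_le' _ _).trans (max_le (hf.trans (min_le_left _ _)) hm)

end Pool.Agent.K1H39.DF
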