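import Pool.Agent.K1H88.DF.Stm
import Pool.Agent.K1H45.DP.Box

/-! Project DF, piece LOW: lower bound for the number of the integers in a box. -/

set_option autoImplicit false

namespace Pool.Agent.K1H39.DF

open Pool.Agent.K1H88.DF NumberField Module

theorem t_LOW : S_LOW := by
  classical
  intro F _ _
  set b := RingOfIntegers.basis F with hb
  set M : ℝ := 1 + ∑ i, ∑ σ : F →+* ℂ, ‖σ (b i : F)‖ with hM
  have hM1 : 1 ≤ M := by
    rw [hM]
    have : 0 ≤ ∑ i, ∑ σ : F →+* ℂ, ‖σ (b i : F)‖ :=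
      Finset.sum_nonneg fun i _ => Finset.sum_nonneg fun σ _ => norm_nonneg _
    linarith
  have hM0 : 0 < M := by linarith
  refine ⟨(M ^ finrank ℚ F)⁻¹, by positivity, fun R hR => ?_⟩
  obtain ⟨C, hC, hbox⟩ := Pool.Agent.K1H45.DP.t_BOX F
  have hfin : {x : F | IsIntegral ℤ x ∧ ∀ σ : F →+* ℂ, ‖σ x‖ ≤ R}.Finite := by
    refine (hbox (max R 1) (le_max_right _ _)).1.subset ?_
    rintro x ⟨h1, h2⟩
    exact ⟨h1, fun σ => (h2 σ).trans (le_max_left _ _)⟩
  set N : ℕ := ⌊R / M⌋₊ with hN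
  have hNle : (N : ℝ) ≤ R / M := Nat.floor_le (by positivity)
  have hNlt : R / M < N + 1 := Nat.lt_floor_add_one _
  set P : Finset (Free.ChooseBasisIndex ℤ (𝓞 F) → ℤ) :=
    Fintype.piFinset fun _ => Finset.Icc (-(N : ℤ)) N with hP
  let g : (Free.ChooseBasisIndex ℤ (𝓞 F) → ℤ) → F := fun c => ((b.equivFun.symm c : 𝓞 F) : F)
  have hginj : Function.Injective g := by
    intro c c' h
    have h1 : (b.equivFun.symm c : 𝓞 F) = b.equivFun.symm c' := RingOfIntegers.ext h
    exact b.equivFun.symm.injective h1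
  have hgval : ∀ c, g c = ∑ i, (c i : F) * (b i : F) := by
    intro c
    show ((b.equivFun.symm c : 𝓞 F) : F) = _
    rw [Basis.equivFun_symm_apply]
    show algebraMap (𝓞 F) F (∑ i, c i • b i) = _
    rw [map_sum]
    refine Finset.sum_congr rfl fun i _ => ?_
    rw [zsmul_eq_mul, map_mul, map_intCast]
  have hsub : (P.image g : Set F) ⊆ {x : F | IsIntegral ℤ x ∧ ∀ σ : F →+* ℂ, ‖σ x‖ ≤ R} := by
    intro x hx
    rw [Finset.coe_image] at hx
    obtain ⟨c, hc, rfl⟩ := hx
    rw [Finset.mem_coe, hP, Fintype.mem_piFinset] at hc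
    refine ⟨(b.equivFun.symm c : 𝓞 F).2, fun σ => ?_⟩
    rw [hgval, map_sum]
    have hcb : ∀ i, ‖((c i : ℤ) : ℂ)‖ ≤ R / M := by
      intro i
      have h1 := Finset.mem_Icc.1 (hc i)
      rw [Complex.norm_intCast]
      refine le_trans ?_ hNle
      have h2 : |c i| ≤ (N : ℤ) := abs_le.2 h1
      exact_mod_cast h2
    calc ‖∑ i, σ ((c i : F) * (b i : F))‖ ≤ ∑ i, ‖σ ((c i : F) * (b i : F))‖ := norm_sum_le _ _
      _ ≤ ∑ i, (R / M) * ‖σ (b i : F)‖ := by
          refine Finset.sum_le_sum fun i _ => ?_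
          rw [map_mul, map_intCast, norm_mul]
          exact mul_le_mul_of_nonneg_right (hcb i) (norm_nonneg _)
      _ = (R / M) * ∑ i, ‖σ (b i : F)‖ := by rw [Finset.mul_sum]
      _ ≤ (R / M) * M := by
          apply mul_le_mul_of_nonneg_left _ (by positivity)
          rw [hM]
          have h3 : ∑ i, ‖σ (b i : F)‖ ≤ ∑ i, ∑ σ : F →+* ℂ, ‖σ (b i : F)‖ := by
            refine Finset.sum_le_sum fun i _ => ?_
            exact Finset.single_le_sum (f := fun σ : F →+* ℂ => ‖σ (b i : F)‖)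
              (fun σ _ => norm_nonneg _) (Finset.mem_univ σ)
          linarith
      _ = R := by field_simp
  have hcard : (P.image g).card = (2 * N + 1) ^ finrank ℚ F := by
    rw [Finset.card_image_of_injective _ hginj, hP, Fintype.card_piFinset]
    simp only [Int.card_Icc, Finset.prod_const]
    congr 1
    · omega
    · rw [Finset.card_univ, ← finrank_eq_card_chooseBasisIndex, RingOfIntegers.rank]
  have h1 : ((P.image g).card : ℝ) ≤
      ({x : F | IsIntegral ℤ x ∧ ∀ σ : F →+* ℂ, ‖σ x‖ ≤ R}.ncard : ℝ) := by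
    have := Set.ncard_le_ncard hsub hfin
    rw [Set.ncard_coe_finset] at this
    exact_mod_cast this
  refine le_trans ?_ h1
  rw [hcard]
  push_cast
  have h2 : R / M ≤ 2 * (N : ℝ) + 1 := by
    have : (0 : ℝ) ≤ N := Nat.cast_nonneg _
    linarith
  calc (M ^ finrank ℚ F)⁻¹ * R ^ finrank ℚ F = (R / M) ^ finrank ℚ F := by
        rw [div_pow]; ring
    _ ≤ (2 * (N : ℝ) + 1) ^ finrank ℚ F := pow_le_pow_left₀ (by positivity) h2 _

end Pool.Agent.K1H39.DF
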